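import Mathlib

set_option autoImplicit false

namespace Pool.Agent.Results.MP_be5e04_al.FC

open Set Filter Topology

/-- the product on `β G`: `A ∈ p q` iff `{x | x⁻¹ A ∈ q} ∈ p` -/
def mul {G : Type} [Group G] (p q : Ultrafilter G) : Ultrafilter G :=
  p.bind fun x => q.map fun y => x * y

/-- closed right ideals of `β G` -/
def ClosedRightIdeal {G : Type} [Group G] (R : Set (Ultrafilter G)) : Prop :=
  IsClosed R ∧ R.Nonempty ∧ ∀ p ∈ R, ∀ q, mul p q ∈ R

theorem result (G : Type) [Group G] (H : Subgroup G) [H.FiniteIndex]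
    (hH : ∀ g ∈ H, {y | ∃ x ∈ H, x⁻¹ * g * x = y}.Finite) :
    ∃! R : Set (Ultrafilter G), Minimal ClosedRightIdeal R := by
  have hm : ∀ (p q : Ultrafilter G) (s : Set G),
      s ∈ mul p q ↔ ∀ᶠ x in p, ∀ᶠ y in q, x * y ∈ s := fun _ _ _ => Iff.rfl
  have hc : ∀ q : Ultrafilter G, Continuous fun p => mul p q := fun q =>
    ultrafilterBasis_is_basis.continuous_iff.2 <| forall_mem_range.2 fun s =>
      ultrafilter_isOpen_basic _
  -- every closed right ideal contains a point concentrating on `H`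
  have h1 : ∀ R : Set (Ultrafilter G), ClosedRightIdeal R → ∃ p ∈ R, (H : Set G) ∈ p := by
    rintro R ⟨-, ⟨p, hp⟩, h2⟩
    have : Finite (Quotient (QuotientGroup.rightRel H)) :=
      Finite.of_equiv _ (QuotientGroup.quotientRightRelEquivQuotientLeftRel H).symm
    obtain ⟨c, hc⟩ := (p.map (Quotient.mk (QuotientGroup.rightRel H))).eq_pure_of_finite
    induction c using Quotient.inductionOn with
    | h g =>
      refine ⟨_, h2 p hp (pure g⁻¹), (hm _ _ _).2 ?_⟩
      have : {Quotient.mk (QuotientGroup.rightRel H) g} ∈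
        p.map (Quotient.mk (QuotientGroup.rightRel H)) := by rw [hc]; rfl
      refine mem_of_superset (Ultrafilter.mem_map.1 this) fun x hx => ?_
      exact QuotientGroup.rightRel_apply.1 (Quotient.exact (Eq.symm hx))
  have h2 : ∀ R : Set (Ultrafilter G), ClosedRightIdeal R → ∀ q ∈ R, (H : Set G) ∈ q →
      ∀ p : Ultrafilter G, (H : Set G) ∈ p → mul p q ∈ R := by
    rintro R ⟨h3, -, h4⟩ q hq hqH p hp
    have h5 : ∀ g ∈ H, mul (pure g) q ∈ R := fun g hg => by
      obtain ⟨y, -, hy⟩ := (Ultrafilter.eventually_exists_mem_iff (f := q)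
        (P := fun y x => x⁻¹ * g * x = y) (hH g hg)).1
        (mem_of_superset hqH fun x hx => ⟨_, ⟨x, hx, rfl⟩, rfl⟩)
      have : mul (pure g) q = mul q (pure y) := Ultrafilter.coe_le_coe.1 fun s hs => by
        have h6 : ∀ᶠ x in q, x * y ∈ s := (hm _ _ _).1 hs
        refine (hm _ _ _).2 (eventually_pure.2 ?_)
        filter_upwards [hy, h6] with x h7 h8
        rwa [← h7, ← mul_assoc, ← mul_assoc, mul_inv_cancel, one_mul] at h8
      rw [this]
      exact h4 q hq _
    exact h3.mem_of_tendsto (((hc q).tendsto p).comp p.tendsto_pure_self) (mem_of_superset hp h5)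
  have h3 : ∀ R S : Set (Ultrafilter G), ClosedRightIdeal R → ClosedRightIdeal S →
      ClosedRightIdeal (R ∩ S) := fun R S hR hS => by
    obtain ⟨p, hp, hp'⟩ := h1 R hR
    obtain ⟨q, hq, hq'⟩ := h1 S hS
    exact ⟨hR.1.inter hS.1, ⟨_, hR.2.2 p hp q, h2 S hS q hq hq' p hp'⟩,
      fun a ha b => ⟨hR.2.2 a ha.1 b, hS.2.2 a ha.2 b⟩⟩
  haveI : Nonempty {R : Set (Ultrafilter G) | ClosedRightIdeal R} :=
    ⟨⟨univ, isClosed_univ, ⟨pure 1, trivial⟩, fun _ _ _ => trivial⟩⟩
  have h4 : ClosedRightIdeal (⋂₀ {R : Set (Ultrafilter G) | ClosedRightIdeal R}) :=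
    ⟨isClosed_sInter fun R hR => hR.1, IsCompact.nonempty_sInter_of_directed_nonempty_isCompact_isClosed
      (fun R hR S hS => ⟨R ∩ S, h3 R S hR hS, inter_subset_left, inter_subset_right⟩)
      (fun R hR => hR.2.1) (fun R hR => hR.1.isCompact) fun R hR => hR.1,
      fun p hp q R hR => hR.2.2 p (hp R hR) q⟩
  exact ⟨_, ⟨h4, fun R hR _ => sInter_subset_of_mem hR⟩, fun R hR =>
    (hR.2 h4 (sInter_subset_of_mem hR.1)).antisymm (sInter_subset_of_mem hR.1)⟩

end Pool.Agent.Results.MP_be5e04_al.FC
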